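import Pool.Agent.T9h86.NF.Lat

/-!
# Boundedly many elements of a slot generate a given ideal (piece `UnitFin`)
-/

set_option autoImplicit false
set_option linter.unusedSectionVars false
set_option linter.unusedVariables false

namespace Pool.Agent.T9h86.NF

open Finset NumberField Pool.Agent.T9h11.NF

theorem unitFin (K : Type) [Field K] [NumberField K] : UnitFin K := by
  classical
  obtain ⟨C, hC, ha, -⟩ := latK K
  rintro ρ ⟨-, -, ⟨c₁, c₂, hc₁, hρ⟩, -⟩
  set d := Module.finrank ℚ K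
  refine ⟨C * (|c₂| / c₁ + 1) ^ d, fun D I S hD hS => ?_⟩
  have hB : 0 ≤ |c₂| / c₁ := by positivity
  rcases S.eq_empty_or_nonempty with rfl | ⟨x₀, hx₀⟩
  · simp only [Finset.card_empty, Nat.cast_zero]
    positivity
  have hv : ∀ x ∈ S, ∀ v : InfinitePlace K, c₁ * D ≤ v (x : K) ∧ v (x : K) ≤ c₂ * D := by
    intro x hx v
    have h1 := hρ _ (hS x hx).1 v
    have h2 : ‖(D⁻¹ • E (x : K)) v‖ = v (x : K) / D := by
      rw [Pi.smul_apply, norm_smul, norm_E_apply, Real.norm_eq_abs, abs_of_pos (inv_pos.2 hD)]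
      field_simp
    rw [h2] at h1
    exact ⟨(le_div_iff₀ hD).1 h1.1, (div_le_iff₀ hD).1 h1.2⟩
  have hdvd : ∀ x ∈ S, ∃ u : 𝓞 K, x = x₀ * u := by
    intro x hx
    have h1 : x ∈ Ideal.span {x₀} := by
      rw [(hS x₀ hx₀).2, ← (hS x hx).2]
      exact Ideal.mem_span_singleton_self x
    exact Ideal.mem_span_singleton.1 h1
  choose! u hu using hdvd
  have hinj : Set.InjOn u S := by
    intro x hx y hy hxy
    rw [hu x hx, hu y hy, hxy]
  have h1 := ha (|c₂| / c₁) (S.image u) hB (by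
    intro y hy
    obtain ⟨x, hx, rfl⟩ := Finset.mem_image.1 hy
    rw [pi_norm_le_iff_of_nonneg hB]
    intro v
    rw [norm_E_apply]
    have h2 := hv x hx v
    have h3 := hv x₀ hx₀ v
    have h4 : v (x : K) = v (x₀ : K) * v (u x : K) := by
      have e : (x : K) = (x₀ : K) * (u x : K) := by
        conv_lhs => rw [hu x hx]
        exact map_mul (algebraMap (𝓞 K) K) x₀ (u x)
      rw [e, map_mul]
    have h5 : 0 < c₁ * D := by positivity
    rw [h4] at h2
    rw [le_div_iff₀ hc₁]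
    have h6 : 0 ≤ v (u x : K) := apply_nonneg v _
    have h7 : c₂ * D ≤ |c₂| * D := mul_le_mul_of_nonneg_right (le_abs_self _) hD.le
    have h8 : c₁ * D * v (u x : K) ≤ |c₂| * D :=
      ((mul_le_mul_of_nonneg_right h3.1 h6).trans h2.2).trans h7
    have h9 : D * (v (u x : K) * c₁) ≤ D * |c₂| := by linarith [mul_comm D (v (u x : K) * c₁)]
    exact le_of_mul_le_mul_left h9 hD)
  rwa [Finset.card_image_of_injOn hinj] at h1

end Pool.Agent.T9h86.NF
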