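import Pool.Agent.T9h11.NF.Spec2

/-!
# Lattice points of `𝓞 K` (piece `LatK`)
-/

set_option autoImplicit false
set_option linter.unusedSectionVars false
set_option linter.unusedVariables false
set_option linter.unnecessarySimpa false

namespace Pool.Agent.T9h86.NF

open Finset NumberField Pool.Agent.T9h11.NF

variable (K : Type) [Field K] [NumberField K]

/-- index of the integral basis -/
abbrev Ib : Type := Module.Free.ChooseBasisIndex ℤ (𝓞 K)

theorem card_Ib : Fintype.card (Ib K) = Module.finrank ℚ K := by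
  rw [← RingOfIntegers.rank K]
  exact (Module.finrank_eq_card_chooseBasisIndex ℤ (𝓞 K)).symm

variable {K}

theorem E_apply (x : K) (v : InfinitePlace K) : E x v = v.embedding x := rfl

theorem norm_E_apply (x : K) (v : InfinitePlace K) : ‖E x v‖ = v x := by
  rw [E_apply]
  exact InfinitePlace.norm_embedding_eq v x

theorem le_norm_E (x : K) (v : InfinitePlace K) : v x ≤ ‖E x‖ := by
  rw [← norm_E_apply]
  exact norm_le_pi_norm _ v

theorem norm_can_le (x : K) : ‖canonicalEmbedding K x‖ ≤ ‖E x‖ := by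
  rw [canonicalEmbedding.norm_le_iff]
  intro φ
  have h := le_norm_E x (InfinitePlace.mk φ)
  rwa [InfinitePlace.apply] at h

theorem nrm_E (x : K) : nrm (E x) = ∏ v : InfinitePlace K, v x ^ v.mult := by
  unfold nrm
  exact Finset.prod_congr rfl fun v _ => by rw [norm_E_apply]

theorem nrm_E_eq (x : 𝓞 K) : nrm (E (x : K)) = |((Algebra.norm ℤ x : ℤ) : ℝ)| := by
  rw [nrm_E, InfinitePlace.prod_eq_abs_norm]
  have h : Algebra.norm ℚ (x : K) = ((Algebra.norm ℤ x : ℤ) : ℚ) := by
    have := Algebra.coe_norm_int x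
    exact this.symm
  rw [h]
  push_cast
  rfl

theorem nrm_le (x : K) : nrm (E x) ≤ ‖E x‖ ^ Module.finrank ℚ K := by
  rw [nrm_E, ← InfinitePlace.sum_mult_eq (K := K), ← Finset.prod_pow_eq_pow_sum]
  refine Finset.prod_le_prod (fun v _ => by positivity) fun v _ => ?_
  exact pow_le_pow_left₀ (apply_nonneg v x) (le_norm_E x v) _

theorem nm_le_nrm {I : Ideal (𝓞 K)} {x : 𝓞 K} (hx : x ∈ I) (h0 : x ≠ 0) :
    nm I ≤ nrm (E (x : K)) := by
  rw [nrm_E_eq]
  have h1 := Ideal.absNorm_dvd_norm_of_mem hx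
  have h2 : Algebra.norm ℤ x ≠ 0 := by
    rwa [Ne, Algebra.norm_eq_zero_iff]
  have h3 := Int.le_of_dvd (abs_pos.2 h2) ((dvd_abs _ _).2 h1)
  unfold nm
  exact_mod_cast h3

variable (K)

/-- coordinates are bounded by the norm -/
theorem coord : ∃ C : ℝ, 1 ≤ C ∧ ∀ (x : 𝓞 K) (i : Ib K),
    |(((RingOfIntegers.basis K).repr x i : ℤ) : ℝ)| ≤ C * ‖E (x : K)‖ := by
  classical
  let L : ((K →+* ℂ) → ℂ) →ₗ[ℂ] (Ib K → ℂ) := (canonicalEmbedding.latticeBasis K).equivFun.toLinearMap
  let L' : ((K →+* ℂ) → ℂ) →L[ℂ] (Ib K → ℂ) := LinearMap.toContinuousLinearMap L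
  refine ⟨‖L'‖ + 1, by linarith [norm_nonneg L'], fun x i => ?_⟩
  have h1 : L' (canonicalEmbedding K (x : K)) i = (((RingOfIntegers.basis K).repr x i : ℤ) : ℂ) := by
    have e1 : L' (canonicalEmbedding K (x : K)) i =
        (canonicalEmbedding.latticeBasis K).repr (canonicalEmbedding K (x : K)) i := rfl
    rw [e1, canonicalEmbedding.integralBasis_repr_apply]
    have e2 : (integralBasis K).repr (x : K) i = (((RingOfIntegers.basis K).repr x i : ℤ) : ℚ) := by
      have := integralBasis_repr_apply K x i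
      simpa using this
    rw [e2]
    push_cast
    rfl
  have h2 : ‖L' (canonicalEmbedding K (x : K)) i‖ ≤ ‖L'‖ * ‖canonicalEmbedding K (x : K)‖ :=
    (norm_le_pi_norm _ i).trans (L'.le_opNorm _)
  rw [h1] at h2
  have h3 : ‖(((RingOfIntegers.basis K).repr x i : ℤ) : ℂ)‖ =
      |(((RingOfIntegers.basis K).repr x i : ℤ) : ℝ)| := by
    rw [Complex.norm_intCast]
  rw [h3] at h2
  have h4 := norm_can_le (K := K) (x : K)
  have h5 : 0 ≤ ‖E (x : K)‖ := norm_nonneg _
  nlinarith [norm_nonneg L', mul_le_mul_of_nonneg_left h4 (norm_nonneg L')]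

/-- the sum of the norms of the basis elements -/
noncomputable def C2 : ℝ := ∑ i : Ib K, ‖E ((RingOfIntegers.basis K i : 𝓞 K) : K)‖ + 1

theorem C2_ge : 1 ≤ C2 K := by
  unfold C2
  have : 0 ≤ ∑ i : Ib K, ‖E ((RingOfIntegers.basis K i : 𝓞 K) : K)‖ :=
    Finset.sum_nonneg fun i _ => norm_nonneg _
  linarith

variable {K}

theorem norm_E_le_coord (x : 𝓞 K) {B : ℝ} (hB : 0 ≤ B)
    (h : ∀ i : Ib K, |(((RingOfIntegers.basis K).repr x i : ℤ) : ℝ)| ≤ B) :
    ‖E (x : K)‖ ≤ (C2 K - 1) * B := by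
  classical
  have h1 : (x : K) = ∑ i : Ib K, (((RingOfIntegers.basis K).repr x i : ℤ) : K) *
      ((RingOfIntegers.basis K i : 𝓞 K) : K) := by
    have e : (x : K) = algebraMap (𝓞 K) K (∑ i : Ib K, (RingOfIntegers.basis K).repr x i •
        RingOfIntegers.basis K i) := by rw [(RingOfIntegers.basis K).sum_repr x]
    rw [e, map_sum]
    refine Finset.sum_congr rfl fun i _ => ?_
    rw [zsmul_eq_mul, map_mul, map_intCast]
  rw [h1, map_sum]
  refine (norm_sum_le _ _).trans ?_
  have h2 : C2 K - 1 = ∑ i : Ib K, ‖E ((RingOfIntegers.basis K i : 𝓞 K) : K)‖ := by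
    unfold C2; ring
  rw [h2, Finset.sum_mul]
  refine Finset.sum_le_sum fun i _ => ?_
  rw [map_mul, map_intCast]
  have h3 : ((((RingOfIntegers.basis K).repr x i : ℤ) : Sp K)) *
      E ((RingOfIntegers.basis K i : 𝓞 K) : K) =
      (((RingOfIntegers.basis K).repr x i : ℤ) : ℝ) • E ((RingOfIntegers.basis K i : 𝓞 K) : K) := by
    funext v
    simp
  rw [h3, norm_smul, Real.norm_eq_abs, mul_comm]
  exact mul_le_mul_of_nonneg_left (h i) (norm_nonneg _)

/-- number of integral points with bounded coordinates -/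
theorem card_le_of_cells {ι : Type} [Fintype ι] {α : Type} (S : Finset α) (f : α → ι → ℤ)
    (hf : Set.InjOn f S) (R : ℝ) (hR : 0 ≤ R) (h : ∀ x ∈ S, ∀ i, |((f x i : ℤ) : ℝ)| ≤ R) :
    (S.card : ℝ) ≤ (2 * R + 1) ^ Fintype.card ι := by
  classical
  have h1 : S.card ≤ (Fintype.piFinset fun _ : ι => Finset.Icc (-⌊R⌋) ⌊R⌋).card := by
    refine Finset.card_le_card_of_injOn f ?_ hf
    intro x hx
    simp only [Finset.mem_coe] at hx ⊢
    rw [Fintype.mem_piFinset]
    intro i
    have h2 := abs_le.1 (h x hx i)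
    rw [Finset.mem_Icc]
    constructor
    · rw [neg_le]
      exact Int.le_floor.2 (by push_cast; linarith)
    · exact Int.le_floor.2 h2.2
  have h0 : 0 ≤ ⌊R⌋ := Int.floor_nonneg.2 hR
  have h3 : (Fintype.piFinset fun _ : ι => Finset.Icc (-⌊R⌋) ⌊R⌋).card =
      (2 * ⌊R⌋ + 1).toNat ^ Fintype.card ι := by
    rw [Fintype.card_piFinset, Finset.prod_const, Finset.card_univ, Int.card_Icc]
    congr 2
    ring
  have h4 : (((2 * ⌊R⌋ + 1).toNat : ℕ) : ℝ) ≤ 2 * R + 1 := by
    have e : (((2 * ⌊R⌋ + 1).toNat : ℕ) : ℝ) = (((2 * ⌊R⌋ + 1).toNat : ℤ) : ℝ) := by norm_cast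
    rw [e, Int.toNat_of_nonneg (by omega)]
    push_cast
    have := Int.floor_le R
    linarith
  calc (S.card : ℝ) ≤ (((2 * ⌊R⌋ + 1).toNat ^ Fintype.card ι : ℕ) : ℝ) := by
        rw [← h3]; exact_mod_cast h1
    _ = (((2 * ⌊R⌋ + 1).toNat : ℕ) : ℝ) ^ Fintype.card ι := by push_cast; rfl
    _ ≤ _ := pow_le_pow_left₀ (by positivity) h4 _

theorem latK (K : Type) [Field K] [NumberField K] : LatK K := by
  classical
  obtain ⟨C1, hC1, hc⟩ := coord K
  have hC2 := C2_ge K
  set d := Module.finrank ℚ K with hd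
  have hdpos : d ≠ 0 := (Module.finrank_pos (R := ℚ) (M := K)).ne'
  have hinj : Function.Injective fun (x : 𝓞 K) (i : Ib K) => (RingOfIntegers.basis K).repr x i := by
    intro x y hxy
    apply (RingOfIntegers.basis K).repr.injective
    ext i
    exact congrFun hxy i
  have hCpos : (0 : ℝ) ≤ (4 * C1 * C2 K + 3) ^ d := by positivity
  refine ⟨(4 * C1 * C2 K + 3) ^ d + C2 K, by linarith, ?_, ?_, ?_, ?_⟩
  · -- (a)
    intro B S hB hS
    have h1 := card_le_of_cells S (fun (x : 𝓞 K) (i : Ib K) => (RingOfIntegers.basis K).repr x i)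
      (hinj.injOn) (C1 * B) (by positivity) (fun x hx i => (hc x i).trans
        (mul_le_mul_of_nonneg_left (hS x hx) (by linarith)))
    rw [card_Ib] at h1
    refine h1.trans ?_
    have h2 : (2 * (C1 * B) + 1) ^ d ≤ ((4 * C1 * C2 K + 3) * (B + 1)) ^ d := by
      refine pow_le_pow_left₀ (by positivity) ?_ _
      have : C1 * B ≤ C1 * C2 K * (B + 1) := by nlinarith [mul_nonneg (by linarith : 0 ≤ C1) hB]
      nlinarith
    rw [mul_pow] at h2
    have h3 : 0 ≤ C2 K * (B + 1) ^ d := by positivity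
    rw [← hd] 
    linarith [add_mul ((4 * C1 * C2 K + 3) ^ d) (C2 K) ((B + 1) ^ d)]
  · -- (b)
    intro I s hI hs hnm
    have hfin : Finite (𝓞 K ⧸ I) := Ring.HasFiniteQuotients.finiteQuotient hI
    have : Fintype (𝓞 K ⧸ I) := Fintype.ofFinite _
    set k := ⌊s⌋₊ with hk
    have hks : (k : ℝ) ≤ s := Nat.floor_le hs.le
    have hks' : s < (k : ℝ) + 1 := Nat.lt_floor_add_one s
    let P : Finset (Ib K → ℕ) := Fintype.piFinset fun _ => Finset.range (k + 1)
    let φ : (Ib K → ℕ) → 𝓞 K := fun f => ∑ i, (f i : ℤ) • RingOfIntegers.basis K i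
    have hcard : (Finset.univ : Finset (𝓞 K ⧸ I)).card < P.card := by
      have h1 : P.card = (k + 1) ^ d := by
        simp only [P]
        rw [Fintype.card_piFinset, Finset.prod_const, Finset.card_univ, Finset.card_range, card_Ib]
      rw [h1, Finset.card_univ]
      have h2 : (Fintype.card (𝓞 K ⧸ I) : ℝ) = nm I := by
        unfold nm
        rw [Ideal.absNorm_apply, Submodule.cardQuot_apply, Nat.card_eq_fintype_card]
      have h3 : (Fintype.card (𝓞 K ⧸ I) : ℝ) < (((k + 1) ^ d : ℕ) : ℝ) := by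
        rw [h2]
        push_cast
        exact hnm.trans_lt (pow_lt_pow_left₀ hks' hs.le hdpos)
      exact_mod_cast h3
    obtain ⟨f, hf, g, hg, hfg, hmk⟩ := Finset.exists_ne_map_eq_of_card_lt_of_maps_to hcard
      (f := fun f => Ideal.Quotient.mk I (φ f)) (fun _ _ => Finset.mem_univ _)
    have hrep : ∀ (f : Ib K → ℕ) (i : Ib K), (RingOfIntegers.basis K).repr (φ f) i = (f i : ℤ) := by
      intro f i
      exact congrFun ((RingOfIntegers.basis K).repr_sum_self (fun i => (f i : ℤ))) i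
    refine ⟨φ f - φ g, Ideal.Quotient.eq.1 hmk, ?_, ?_⟩
    · intro h0
      apply hfg
      funext i
      have h1 := congrArg (fun x => (RingOfIntegers.basis K).repr x i) (sub_eq_zero.1 h0)
      simp only [hrep] at h1
      exact_mod_cast h1
    · have h1 : ‖E ((φ f - φ g : 𝓞 K) : K)‖ ≤ (C2 K - 1) * s := by
        refine norm_E_le_coord _ hs.le fun i => ?_
        rw [map_sub, Finsupp.sub_apply, hrep, hrep]
        have h2 := Finset.mem_range.1 ((Fintype.mem_piFinset.1 hf) i)
        have h3 := Finset.mem_range.1 ((Fintype.mem_piFinset.1 hg) i)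
        have h4 : (f i : ℝ) ≤ k := by exact_mod_cast Nat.lt_succ_iff.1 h2
        have h5 : (g i : ℝ) ≤ k := by exact_mod_cast Nat.lt_succ_iff.1 h3
        have h6 : (0 : ℝ) ≤ f i := Nat.cast_nonneg _
        have h7 : (0 : ℝ) ≤ g i := Nat.cast_nonneg _
        push_cast
        rw [abs_le]
        constructor <;> linarith
      refine h1.trans ?_
      have h2 : C2 K - 1 ≤ (4 * C1 * C2 K + 3) ^ d + C2 K := by linarith
      exact mul_le_mul_of_nonneg_right h2 hs.le
  · -- (c)
    intro I x hx h0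
    exact ⟨nm_le_nrm hx h0, nrm_le _⟩
  · -- (d)
    intro I s B κ S hI hs hsd hB hS
    have hsep : ∀ x ∈ S, ∀ y ∈ S, x ≠ y → s ≤ ‖E ((x - y : 𝓞 K) : K)‖ := by
      intro x hx y hy hxy
      have h1 : x - y ∈ I := by
        have := I.sub_mem (hS x hx).1 (hS y hy).1
        simpa using this
      have h2 := (nm_le_nrm h1 (sub_ne_zero.2 hxy)).trans (nrm_le _)
      rw [← hsd] at h2
      exact le_of_pow_le_pow_left₀ hdpos (norm_nonneg _) h2
    have hcs : 0 < s / C2 K := by positivity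
    have h1 := card_le_of_cells S
      (fun (x : 𝓞 K) (i : Ib K) => ⌊(((RingOfIntegers.basis K).repr x i : ℤ) : ℝ) / (s / C2 K)⌋)
      (by
        intro x hx y hy hxy
        by_contra hne
        have h2 := hsep x hx y hy hne
        have h3 : ‖E ((x - y : 𝓞 K) : K)‖ ≤ (C2 K - 1) * (s / C2 K) := by
          refine norm_E_le_coord (x - y) hcs.le fun i => ?_
          have h4 := congrFun hxy i
          simp only at h4
          have h5 := Int.abs_sub_lt_one_of_floor_eq_floor h4
          rw [← sub_div, abs_div, abs_of_pos hcs, div_lt_one hcs] at h5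
          rw [map_sub, Finsupp.sub_apply]
          push_cast
          exact h5.le
        have h6 : (C2 K - 1) * (s / C2 K) < s := by
          rw [← mul_div_assoc, div_lt_iff₀ (by linarith)]
          nlinarith
        linarith)
      (C1 * B / (s / C2 K) + 1) (by positivity)
      (by
        intro x hx i
        have h2 := (hc x i).trans (mul_le_mul_of_nonneg_left (hS x hx).2 (by linarith : 0 ≤ C1))
        have h3 : |(((RingOfIntegers.basis K).repr x i : ℤ) : ℝ) / (s / C2 K)| ≤
            C1 * B / (s / C2 K) := by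
          rw [abs_div, abs_of_pos hcs]
          gcongr
        have h4 := abs_le.1 h3
        have h5 := Int.floor_le ((((RingOfIntegers.basis K).repr x i : ℤ) : ℝ) / (s / C2 K))
        have h6 := Int.lt_floor_add_one ((((RingOfIntegers.basis K).repr x i : ℤ) : ℝ) / (s / C2 K))
        rw [abs_le]
        constructor <;> linarith)
    rw [card_Ib] at h1
    refine h1.trans ?_
    have h2 : (2 * (C1 * B / (s / C2 K) + 1) + 1) ^ d ≤
        ((4 * C1 * C2 K + 3) * (1 + B / s)) ^ d := by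
      refine pow_le_pow_left₀ (by positivity) ?_ _
      have e : C1 * B / (s / C2 K) = C1 * C2 K * (B / s) := by field_simp
      rw [e]
      have h3 : 0 ≤ B / s := by positivity
      have h4 : 0 ≤ C1 * C2 K := by positivity
      nlinarith [mul_nonneg h4 h3]
    rw [mul_pow] at h2
    have h3 : 0 ≤ C2 K * (1 + B / s) ^ d := by positivity
    rw [← hd]
    linarith [add_mul ((4 * C1 * C2 K + 3) ^ d) (C2 K) ((1 + B / s) ^ d)]

end Pool.Agent.T9h86.NF
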